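import Pool.Agent.Helper20.FR.St
import Pool.Agent.Helper20.FC.E2

/-!
# The module of sequences tending to zero with zero action
-/

open Topology Filter

namespace Pool.Agent.Helper20.FR

open Pool.Agent.Helper20.FA

attribute [local instance] IsFrechet.tag IsFrechet.csm IsFrechet.lcs

/-- Sequences tending to zero. -/
abbrev c0 : Type := ZeroAtInftyContinuousMap ℕ ℂ

/-- A sequence tending to zero. -/
noncomputable def mkC (f : ℕ → ℂ) (h : Tendsto f atTop (𝓝 0)) : c0 where
  toFun := f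
  continuous_toFun := continuous_of_discreteTopology
  zero_at_infty' := by
    rw [cocompact_eq_cofinite, Nat.cofinite_eq_atTop]
    exact h

theorem mkC_apply (f : ℕ → ℂ) (h : Tendsto f atTop (𝓝 0)) (n : ℕ) : mkC f h n = f n := rfl

theorem c0_tendsto (f : c0) : Tendsto (fun n => f n) atTop (𝓝 0) := by
  have h1 := f.zero_at_infty'
  rw [cocompact_eq_cofinite, Nat.cofinite_eq_atTop] at h1
  exact h1

theorem c0_norm_le {f : c0} {C : ℝ} (hC : 0 ≤ C) (h : ∀ n, ‖f n‖ ≤ C) : ‖f‖ ≤ C := by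
  rw [← ZeroAtInftyContinuousMap.norm_toBCF_eq_norm]
  exact (BoundedContinuousFunction.norm_le hC).2 h

theorem c0_le_norm (f : c0) (n : ℕ) : ‖f n‖ ≤ ‖f‖ := by
  rw [← ZeroAtInftyContinuousMap.norm_toBCF_eq_norm]
  exact f.toBCF.norm_coe_le_norm n

theorem c0_ext {f g : c0} (h : ∀ n, f n = g n) : f = g := DFunLike.ext f g h

/-- The coordinates. -/
noncomputable def cdn (n : ℕ) : c0 →L[ℂ] ℂ :=
  LinearMap.mkContinuous
    { toFun := fun f => f n
      map_add' := fun _ _ => rfl
      map_smul' := fun _ _ => rfl } 1 (fun f => by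
        rw [one_mul]
        exact c0_le_norm f n)

theorem cdn_apply (n : ℕ) (f : c0) : cdn n f = f n := rfl

/-- The unit vectors. -/
noncomputable def unC (n : ℕ) : c0 :=
  mkC (fun m => if m = n then 1 else 0) (tendsto_const_nhds.congr' (by
    filter_upwards [eventually_gt_atTop n] with m hm
    rw [if_neg (by omega)]))

theorem unC_apply (n m : ℕ) : unC n m = if m = n then 1 else 0 := rfl

theorem norm_unC_le (n : ℕ) : ‖unC n‖ ≤ 1 := by
  refine c0_norm_le zero_le_one fun m => ?_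
  rw [unC_apply]
  split_ifs <;> simp

section

variable {A : Type} [NonUnitalRing A] [Module ℂ A]

/-- Bounded linear maps to the sequences tending to zero. -/
abbrev LA (r : Seminorm ℂ A) : Type := SA r →L[ℂ] c0

noncomputable instance (r : Seminorm ℂ A) : NormedAddCommGroup (LA r) :=
  { (inferInstanceAs (SeminormedAddCommGroup (LA r)) : SeminormedAddCommGroup (LA r)) with
    eq_of_dist_eq_zero := by
      intro f g h
      refine ContinuousLinearMap.ext fun c => ?_
      rw [dist_eq_norm] at h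
      have h1 := (f - g).le_opNorm c
      rw [h, zero_mul] at h1
      exact sub_eq_zero.1 (norm_le_zero_iff.1 h1) }

/-- The value at an element. -/
noncomputable def LA.at {r : Seminorm ℂ A} (T : LA r) (a : A) : c0 := T (SA.of r a)

theorem LA.bd {r : Seminorm ℂ A} (T : LA r) (a : A) : ‖T.at a‖ ≤ ‖T‖ * r a :=
  T.le_opNorm (SA.of r a)

theorem LA.ext' {r : Seminorm ℂ A} {S T : LA r} (h : ∀ c, S.at c = T.at c) : S = T :=
  ContinuousLinearMap.ext h

/-- The `n`-th coordinate given by `l`. -/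
noncomputable def sing {r : Seminorm ℂ A} (n : ℕ) (l : DA r) : LA r :=
  ContinuousLinearMap.smulRight l (unC n)

theorem sing_at {r : Seminorm ℂ A} (n : ℕ) (l : DA r) (a : A) :
    (sing n l).at a = l.at a • unC n := rfl

theorem norm_sing_le {r : Seminorm ℂ A} (n : ℕ) (l : DA r) : ‖sing n l‖ ≤ ‖l‖ := by
  refine ContinuousLinearMap.opNorm_le_bound _ (norm_nonneg l) fun a => ?_
  show ‖l a • unC n‖ ≤ ‖l‖ * ‖a‖
  rw [norm_smul]
  have h1 := l.le_opNorm a
  have h2 := norm_unC_le n
  have h3 := norm_nonneg (l a)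
  have h4 := norm_nonneg (unC n)
  nlinarith

/-- The map with coordinates `b n • l n`. -/
noncomputable def seqT {r : Seminorm ℂ A} (l : ℕ → DA r) (h1 : ∀ n, ‖l n‖ ≤ 1)
    (h2 : ∀ a, Tendsto (fun n => (l n).at a) atTop (𝓝 0)) (b : Bd) : LA r :=
  LinearMap.mkContinuous
    { toFun := fun a => mkC (fun n => b n * l n a) (by
        refine squeeze_zero_norm (a := fun n => ‖b‖ * ‖l n a‖) (fun n => ?_) ?_
        · rw [norm_mul]
          exact mul_le_mul_of_nonneg_right (b.norm_coe_le_norm n) (norm_nonneg _)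
        · have h3 := (h2 a).norm
          rw [norm_zero] at h3
          have h4 := h3.const_mul ‖b‖
          rw [mul_zero] at h4
          exact h4)
      map_add' := fun x y => c0_ext fun n => by
        show b n * l n (x + y) = b n * l n x + b n * l n y
        rw [map_add, mul_add]
      map_smul' := fun s x => c0_ext fun n => by
        show b n * l n (s • x) = s * (b n * l n x)
        rw [map_smul, smul_eq_mul]
        ring } ‖b‖ (by
      intro a
      refine c0_norm_le (by positivity) fun n => ?_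
      show ‖b n * l n a‖ ≤ ‖b‖ * ‖a‖
      rw [norm_mul]
      have h3 := (l n).le_opNorm a
      have h4 := h1 n
      have h5 := norm_nonneg a
      have h6 : ‖l n a‖ ≤ ‖a‖ := by nlinarith
      exact mul_le_mul (b.norm_coe_le_norm n) h6 (norm_nonneg _) (norm_nonneg _))

theorem seqT_at {r : Seminorm ℂ A} (l : ℕ → DA r) (h1 : ∀ n, ‖l n‖ ≤ 1)
    (h2 : ∀ a, Tendsto (fun n => (l n).at a) atTop (𝓝 0)) (b : Bd) (a : A) (n : ℕ) :
    (seqT l h1 h2 b).at a n = b n * (l n).at a := rfl

theorem norm_seqT_le {r : Seminorm ℂ A} (l : ℕ → DA r) (h1 : ∀ n, ‖l n‖ ≤ 1)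
    (h2 : ∀ a, Tendsto (fun n => (l n).at a) atTop (𝓝 0)) (b : Bd) :
    ‖seqT l h1 h2 b‖ ≤ ‖b‖ :=
  LinearMap.mkContinuous_norm_le _ (norm_nonneg b) _

theorem seqT_un {r : Seminorm ℂ A} (l : ℕ → DA r) (h1 : ∀ n, ‖l n‖ ≤ 1)
    (h2 : ∀ a, Tendsto (fun n => (l n).at a) atTop (𝓝 0)) (k : ℕ) :
    seqT l h1 h2 (unB k) = sing k (l k) := by
  refine LA.ext' fun a => c0_ext fun n => ?_
  rw [seqT_at, sing_at, unB_apply]
  show _ = (l k).at a * (if n = k then 1 else 0)
  by_cases h : n = k
  · rw [if_pos h, h]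
    ring
  · rw [if_neg h]
    ring

variable [IsScalarTower ℂ A A] [SMulCommClass ℂ A A]

/-- The action on the maps. -/
noncomputable def BL (r : Seminorm ℂ A) (hm : ∀ a b, r (a * b) ≤ r a * r b) :
    SA r →L[ℂ] LA r →L[ℂ] LA r :=
  ((ContinuousLinearMap.compL ℂ (SA r) (SA r) c0).flip).comp (SA.R r hm)

theorem BL_at (r : Seminorm ℂ A) (hm : ∀ a b, r (a * b) ≤ r a * r b) (a : A) (T : LA r)
    (c : A) : (BL r hm (SA.of r a) T).at c = T.at (c * a) := rfl

theorem BL_sing (r : Seminorm ℂ A) (hm : ∀ a b, r (a * b) ≤ r a * r b) (a : A) (n : ℕ)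
    (l : DA r) : BL r hm (SA.of r a) (sing n l) = sing n (SA.B r hm (SA.of r a) l) := rfl

variable [TopologicalSpace A] [IsFrechet A]

/-- The module `c0` with zero action. -/
noncomputable def c0M (A : Type) [NonUnitalRing A] [Module ℂ A] [TopologicalSpace A] :
    FMod A where
  X := c0
  fre := IsFrechet.of_normed
  act := 0
  act_mul := fun _ _ _ => rfl
  act_cont := continuous_const

/-- The module `c0 × L(A_r, c0)`. -/
noncomputable def dualC (r : Seminorm ℂ A) (hm : ∀ a b, r (a * b) ≤ r a * r b)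
    (hr : Continuous r) : FMod A where
  X := c0 × LA r
  fre := IsFrechet.of_normed
  act := LinearMap.mk₂ ℂ (fun a z => (z.2.at a, BL r hm (SA.of r a) z.2))
    (fun a b z => Prod.ext (map_add z.2 _ _) (LA.ext' fun c => by
      show z.2.at (c * (a + b)) = z.2.at (c * a) + z.2.at (c * b)
      rw [mul_add]
      exact map_add z.2 _ _))
    (fun s a z => Prod.ext (map_smul z.2 s _) (LA.ext' fun c => by
      show z.2.at (c * (s • a)) = s • z.2.at (c * a)
      rw [mul_smul_comm]
      exact map_smul z.2 s _))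
    (fun a z w => Prod.ext rfl (LA.ext' fun c => rfl))
    (fun s a z => Prod.ext rfl (LA.ext' fun c => rfl))
  act_mul := by
    intro a b z
    refine Prod.ext rfl (LA.ext' fun c => ?_)
    show z.2.at (c * (a * b)) = z.2.at ((c * a) * b)
    rw [mul_assoc]
  act_cont := by
    have h1 : Continuous fun p : A × (c0 × LA r) => (SA.j r hr p.1, p.2.2) := by fun_prop
    have h2 : Continuous fun p : SA r × LA r => p.2 p.1 := by fun_prop
    have h3 : Continuous fun p : SA r × LA r => BL r hm p.1 p.2 :=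
      ((BL r hm).continuous.comp continuous_fst).clm_apply continuous_snd
    exact (h2.comp h1).prodMk (h3.comp h1)

theorem LA.bound_of_cont (r : Seminorm ℂ A) (w : Seminorm ℂ (LA r)) (hw : Continuous w) :
    ∃ C, 0 < C ∧ ∀ T, w T ≤ C * ‖T‖ := by
  have h2 : {T : LA r | w T < 1} ∈ 𝓝 (0 : LA r) := by
    refine (isOpen_lt hw continuous_const).mem_nhds ?_
    simp
  obtain ⟨ε, hε, hεs⟩ := Metric.mem_nhds_iff.1 h2
  refine ⟨2 / ε, by positivity, fun T => ?_⟩
  by_contra h
  push Not at h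
  have h0 : 0 < w T := lt_of_le_of_lt (by positivity) h
  have h3 : ‖((((w T)⁻¹ : ℝ) : ℂ)) • T‖ ≤ (w T)⁻¹ * ‖T‖ := by
    refine ContinuousLinearMap.opNorm_le_bound _ (by positivity) fun a => ?_
    show ‖((((w T)⁻¹ : ℝ) : ℂ)) • T a‖ ≤ (w T)⁻¹ * ‖T‖ * ‖a‖
    rw [norm_smul, Complex.norm_real, Real.norm_of_nonneg (by positivity), mul_assoc]
    exact mul_le_mul_of_nonneg_left (T.le_opNorm a) (by positivity)
  have h4 : (w T)⁻¹ * ‖T‖ < ε := by
    rw [inv_mul_lt_iff₀ h0]
    rw [div_mul_eq_mul_div, div_lt_iff₀ hε] at h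
    nlinarith [norm_nonneg T]
  have h5 : w (((((w T)⁻¹ : ℝ) : ℂ)) • T) < 1 := hεs (by
    rw [Metric.mem_ball, dist_zero_right]
    exact h3.trans_lt h4)
  rw [map_smul_eq_mul, Complex.norm_real, Real.norm_of_nonneg (by positivity),
    inv_mul_cancel₀ h0.ne'] at h5
  exact lt_irrefl _ h5

/-- The necessary condition. -/
theorem nec0 [ContinuousMul A] (hPH : StPH) {J : FMod A} (hJ : Injective J)
    (e : c0 →L[ℂ] J.X) (he : ∀ (a : A) (z : c0), J.act a (e z) = 0) (s : J.X →L[ℂ] c0)
    (hs : ∀ z, s (e z) = z) :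
    ∃ q : Seminorm ℂ A, Continuous q ∧ ∀ (r : Seminorm ℂ A)
      (hm : ∀ a b, r (a * b) ≤ r a * r b), Continuous r →
      ∃ (F : ℕ → DA r →ₗ[ℂ] ℂ) (C : ℝ), 0 ≤ C ∧ (∀ n l, ‖F n l‖ ≤ C * ‖l‖) ∧
        (∀ n c (l : DA r), ‖l.at c + F n (SA.B r hm (SA.of r c) l)‖ ≤ C * q c * ‖l‖) ∧
        (∀ l : ℕ → DA r, (∀ n, ‖l n‖ ≤ 1) →
          (∀ a, Tendsto (fun n => (l n).at a) atTop (𝓝 0)) →
          Tendsto (fun n => F n (l n)) atTop (𝓝 0)) := by
  have hJmet := J.fre.metr
  obtain ⟨q, ρ, hq, hρ, hqρ⟩ := bil_bound (K := c0)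
    ((LinearMap.llcomp ℂ J.X J.X c0 s.toLinearMap).comp J.act) (normSeminorm ℂ c0)
    ((s.continuous.comp J.act_cont).norm)
  have hqρ' : ∀ (a : A) (y : J.X), ‖s (J.act a y)‖ ≤ q a * ρ y := fun a y => hqρ a y
  refine ⟨q, hq, fun r hm hr => ?_⟩
  let V : FMod A := dualC r hm hr
  let L : Submodule ℂ V.X := LinearMap.ker (ContinuousLinearMap.snd ℂ c0 (LA r)).toLinearMap
  have hL : ∀ z : V.X, z ∈ L ↔ z.2 = 0 := fun z => Iff.rfl
  have hLc : IsClosed (L : Set V.X) :=
    isClosed_eq (by fun_prop : Continuous fun z : c0 × LA r => z.2) continuous_const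
  let τ : V.X →L[ℂ] J.X := e.comp (ContinuousLinearMap.fst ℂ c0 (LA r))
  have hτ : ∀ z : V.X, τ z = e z.1 := fun z => rfl
  have hact : ∀ (a : A) (z : V.X), V.act a z = (z.2.at a, BL r hm (SA.of r a) z.2) :=
    fun a z => rfl
  obtain ⟨Φ, hΦ, hΦL⟩ := exists_hom hJ L hLc (by
    intro a z hz
    rw [hL] at hz ⊢
    rw [hact, hz, map_zero]) τ (by
    intro a z hz
    rw [hL] at hz
    rw [hτ, hτ, hact, hz, he]
    show e 0 = 0
    rw [map_zero])
  let G0 : LA r →L[ℂ] J.X := Φ.comp (ContinuousLinearMap.inr ℂ c0 (LA r))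
  let G : LA r →L[ℂ] c0 := s.comp G0
  have hG : ∀ T : LA r, G T = s (Φ (0, T)) := fun T => rfl
  let w : Seminorm ℂ (LA r) := ρ.comp G0.toLinearMap
  have hw : Continuous w := hρ.comp G0.continuous
  obtain ⟨C1, hC1, hC1b⟩ := LA.bound_of_cont r w hw
  have key : ∀ (a : A) (T : LA r), ‖T.at a + G (BL r hm (SA.of r a) T)‖ ≤ C1 * q a * ‖T‖ := by
    intro a T
    have h1 : s (J.act a (Φ (0, T))) = T.at a + G (BL r hm (SA.of r a) T) := by
      have h2 : Φ (V.act a (0, T)) = J.act a (Φ (0, T)) := hΦ a (0, T)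
      have h3 : V.act a (0, T) = (show V.X from ((T.at a, 0) : c0 × LA r)) +
          (show V.X from ((0, BL r hm (SA.of r a) T) : c0 × LA r)) :=
        Prod.ext (add_zero _).symm (zero_add _).symm
      have h4 : Φ (show V.X from ((T.at a, 0) : c0 × LA r)) = e (T.at a) := hΦL _ rfl
      rw [← h2, h3, map_add, h4, map_add, hs, hG]
    rw [← h1]
    have h2 : ρ (Φ (0, T)) ≤ C1 * ‖T‖ := hC1b T
    calc ‖s (J.act a (Φ (0, T)))‖ ≤ q a * ρ (Φ (0, T)) := hqρ' a _
      _ ≤ q a * (C1 * ‖T‖) := mul_le_mul_of_nonneg_left h2 (apply_nonneg q a)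
      _ = C1 * q a * ‖T‖ := by ring
  let F : ℕ → DA r →ₗ[ℂ] ℂ := fun n =>
    { toFun := fun l => G (sing n l) n
      map_add' := fun l l' => by
        have h1 : sing n (l + l') = sing n l + sing n l' := by
          refine LA.ext' fun a => c0_ext fun m => ?_
          show (l.at a + l'.at a) * unC n m = l.at a * unC n m + l'.at a * unC n m
          ring
        rw [h1, map_add]
        rfl
      map_smul' := fun t l => by
        have h1 : sing n (t • l) = t • sing n l := by
          refine LA.ext' fun a => c0_ext fun m => ?_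
          show (t * l.at a) * unC n m = t * (l.at a * unC n m)
          ring
        rw [h1, map_smul]
        rfl }
  have hF : ∀ n l, F n l = G (sing n l) n := fun n l => rfl
  have hwG : Continuous ((normSeminorm ℂ c0).comp G.toLinearMap) := G.continuous.norm
  obtain ⟨CG, hCG, hCGb⟩ := LA.bound_of_cont r _ hwG
  have hGb : ∀ T : LA r, ‖G T‖ ≤ CG * ‖T‖ := fun T => hCGb T
  refine ⟨F, CG + C1, by linarith, fun n l => ?_, fun n c l => ?_, fun l hl1 hl2 => ?_⟩
  · rw [hF]
    have h1 := c0_le_norm (G (sing n l)) n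
    have h2 := hGb (sing n l)
    have h3 := norm_sing_le n l
    have h4 := norm_nonneg l
    have h5 : CG * ‖sing n l‖ ≤ CG * ‖l‖ := mul_le_mul_of_nonneg_left h3 hCG.le
    nlinarith
  · have h1 := key c (sing n l)
    have h2 : (l.at c + F n (SA.B r hm (SA.of r c) l) : ℂ) =
        ((sing n l).at c + G (BL r hm (SA.of r c) (sing n l))) n := by
      rw [BL_sing, hF, sing_at]
      show _ = l.at c * (if n = n then 1 else 0) + _
      rw [if_pos rfl, mul_one]
      rfl
    rw [h2]
    refine (c0_le_norm _ n).trans (h1.trans ?_)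
    have h3 := norm_sing_le n l
    have h4 := norm_nonneg (sing n l)
    have h5 := apply_nonneg q c
    have h6 : C1 * q c * ‖sing n l‖ ≤ C1 * q c * ‖l‖ :=
      mul_le_mul_of_nonneg_left h3 (mul_nonneg hC1.le h5)
    have h7 : 0 ≤ CG * q c * ‖l‖ := mul_nonneg (mul_nonneg hCG.le h5) (norm_nonneg l)
    linarith
  · let T : Bd →ₗ[ℂ] (ℕ → ℂ) :=
      { toFun := fun b n => G (seqT l hl1 hl2 b) n
        map_add' := fun b b' => by
          have h1 : seqT l hl1 hl2 (b + b') = seqT l hl1 hl2 b + seqT l hl1 hl2 b' := by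
            refine LA.ext' fun a => c0_ext fun n => ?_
            show (b n + b' n) * (l n).at a = b n * (l n).at a + b' n * (l n).at a
            ring
          funext n
          rw [h1, map_add]
          rfl
        map_smul' := fun t b => by
          have h1 : seqT l hl1 hl2 (t • b) = t • seqT l hl1 hl2 b := by
            refine LA.ext' fun a => c0_ext fun n => ?_
            show (t * b n) * (l n).at a = t * (b n * (l n).at a)
            ring
          funext n
          rw [h1, map_smul]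
          rfl }
    have hT : ∀ b n, T b n = G (seqT l hl1 hl2 b) n := fun b n => rfl
    have h1 := hPH T CG hCG.le (fun b n => by
      rw [hT]
      have h2 := c0_le_norm (G (seqT l hl1 hl2 b)) n
      have h3 := hGb (seqT l hl1 hl2 b)
      have h4 := norm_seqT_le l hl1 hl2 b
      have h5 : CG * ‖seqT l hl1 hl2 b‖ ≤ CG * ‖b‖ := mul_le_mul_of_nonneg_left h4 hCG.le
      linarith) (fun b => c0_tendsto _)
    refine h1.congr fun n => ?_
    rw [hT, seqT_un, hF]

end

end Pool.Agent.Helper20.FR
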