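import Pool.Agent.Helper20.FR.St

/-!
# Seminorms with radical completion
-/

open Topology Filter

namespace Pool.Agent.Helper20.FR

open Pool.Agent.Helper20.FA

/-- The completion of `A` with respect to the submultiplicative seminorm `r` is a radical Banach
algebra: each Cauchy sequence has an approximate left quasi-inverse. -/
def RadSem {A : Type} [NonUnitalRing A] [Module ℂ A] (r : Seminorm ℂ A) : Prop :=
  ∀ α : ℕ → A, (∀ ε > 0, ∃ N, ∀ k ≥ N, r (α k - α N) ≤ ε) →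
    ∃ (β : A) (N : ℕ), ∀ k ≥ N, r (β + α k + β * α k) ≤ 1 / 2

/-- RB (commutative case). Proof: as for StRA: `r (α k ^ (n + 1)) ≤ K' (1/4) ^ n` for all `k ≥ N`
and all `n`; fix `m` with `K' (1/4) ^ m ≤ 1/4`, put `b k = ∑ 1 ≤ j ≤ m, (-α k) ^ j`,
`r (b k) ≤ K''` for `k ≥ N`, and choose `M ≥ N` with `r (α k - α M) ≤ 1 / (4 (1 + K''))` for
`k ≥ M`; then `β = b M` works, since
`β + α k + β α k = (β + α M + β α M) + (α k - α M) + β (α k - α M)` and
`β + α M + β α M = -(-α M) ^ (m + 1)`. -/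
def StRB : Prop := ∀ (A : Type) [NonUnitalCommRing A] [Module ℂ A] [IsScalarTower ℂ A A]
  [SMulCommClass ℂ A A] (r : Seminorm ℂ A), (∀ a b, r (a * b) ≤ r a * r b) →
  (∀ a : A, ∀ ε > 0, ∃ K : ℝ, ∀ n : ℕ, r ((fun z => a * z)^[n] a) ≤ K * ε ^ n) → RadSem r

end Pool.Agent.Helper20.FR
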