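import Pool.Agent.Helper20.FR.C1
import Pool.Agent.Helper20.FR.St2
import Pool.Agent.Helper24.R20.M_UL
import Pool.Agent.Helper31.R20.M_PH
import Pool.Agent.Helper41.R20.M_AS
import Pool.Agent.Helper45.R20.M_DI
import Pool.Agent.Helper73.R20.M_HB

/-!
# Radical Fréchet algebras
-/

open Topology Filter

namespace Pool.Agent.Helper20.FR

open Pool.Agent.Helper20.FA

attribute [local instance] IsFrechet.tag IsFrechet.csm IsFrechet.lcs

theorem rad_bound {A : Type} [NonUnitalRing A] [Module ℂ A] {r q : Seminorm ℂ A}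
    (hm : ∀ a b, r (a * b) ≤ r a * r b) (hR : RadSem r) {α : ℕ → A} {C : ℝ} (hC0 : 0 ≤ C)
    (hα : ∀ ε > 0, ∃ N, ∀ k ≥ N, r (α k - α N) ≤ ε)
    (hC : ∀ k c, r (c + α k * c) ≤ C * q c + (1 / 2) ^ k * r c) :
    ∃ C' : ℝ, ∀ c, r c ≤ C' * q c := by
  obtain ⟨β, N, hβ⟩ := hR α hα
  refine ⟨2 * (1 + r β) * C, fun c => ?_⟩
  have hb := apply_nonneg r β
  have hc := apply_nonneg r c
  have hqc := apply_nonneg q c
  have key : ∀ k ≥ N, r c ≤ (1 + r β) * (C * q c + (1 / 2) ^ k * r c) + 1 / 2 * r c := by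
    intro k hk
    have h1 : c = (c + α k * c) + β * (c + α k * c) - (β + α k + β * α k) * c := by
      noncomm_ring
    have h2 : r c ≤ r (c + α k * c) + r (β * (c + α k * c)) + r ((β + α k + β * α k) * c) := by
      conv_lhs => rw [h1]
      refine (map_sub_le_add r _ _).trans ?_
      gcongr
      exact map_add_le_add r _ _
    have h3 := hm β (c + α k * c)
    have h4 := hm (β + α k + β * α k) c
    have h5 := hC k c
    have h6 : r β * r (c + α k * c) ≤ r β * (C * q c + (1 / 2) ^ k * r c) :=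
      mul_le_mul_of_nonneg_left h5 hb
    have h7 : r (β + α k + β * α k) * r c ≤ 1 / 2 * r c :=
      mul_le_mul_of_nonneg_right (hβ k hk) hc
    linarith
  have h1 : Tendsto (fun k : ℕ => (1 + r β) * (C * q c + (1 / 2) ^ k * r c) + 1 / 2 * r c) atTop
      (𝓝 ((1 + r β) * (C * q c + 0 * r c) + 1 / 2 * r c)) := by
    have h2 : Tendsto (fun k : ℕ => ((1 : ℝ) / 2) ^ k) atTop (𝓝 0) :=
      tendsto_pow_atTop_nhds_zero_of_lt_one (by norm_num) (by norm_num)
    exact ((((h2.mul_const (r c)).const_add (C * q c)).const_mul (1 + r β))).add_const _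
  have h2 : r c ≤ (1 + r β) * (C * q c + 0 * r c) + 1 / 2 * r c := by
    refine ge_of_tendsto h1 ?_
    filter_upwards [eventually_ge_atTop N] with k hk
    exact key k hk
  linarith

/-- Some topologically complemented copy of `c0` in `M` is killed by `A`. -/
def HasC0 {A : Type} [NonUnitalRing A] [Module ℂ A] [TopologicalSpace A] (M : FMod A) : Prop :=
  ∃ (i : c0 →L[ℂ] M.X) (π : M.X →L[ℂ] c0), (∀ z, π (i z) = z) ∧
    ∀ (a : A) (z : c0), M.sm a (i z) = 0

/-- The topology of `A` is given by submultiplicative seminorms with radical completions. -/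
def RadAlg (A : Type) [NonUnitalRing A] [Module ℂ A] [TopologicalSpace A] : Prop :=
  ∀ p : Seminorm ℂ A, Continuous p → ∃ r : Seminorm ℂ A, Continuous r ∧ (∀ x, p x ≤ r x) ∧
    (∀ a b, r (a * b) ≤ r a * r b) ∧ RadSem r

variable {A : Type} [NonUnitalRing A] [Module ℂ A] [IsScalarTower ℂ A A] [SMulCommClass ℂ A A]
  [TopologicalSpace A] [IsFrechet A] [ContinuousMul A]

theorem hasC0_c0M : HasC0 (c0M A) :=
  ⟨ContinuousLinearMap.id ℂ c0, ContinuousLinearMap.id ℂ c0, fun _ => rfl, fun _ _ => rfl⟩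

theorem normable_of_hasC0 [TopologicalSpace.SeparableSpace A] (hA : RadAlg A) {M : FMod A}
    (hM : HasCores M) (h0 : HasC0 M) : Normable A := by
  have hUL := Pool.Agent.Helper24.R20.hUL
  have hDI := Pool.Agent.Helper45.R20.hDI Pool.Agent.Helper73.R20.hHB
  have hAS := Pool.Agent.Helper41.R20.hAS hUL hDI
  have hPH := Pool.Agent.Helper31.R20.hPH
  obtain ⟨i, π, hπ, hk⟩ := h0
  obtain ⟨J, hJ, e, d, he, -, -, -, s, t, hs, -, -⟩ := hM
  let e0 : M.X →L[ℂ] (J 0).X := e
  let s0 : (J 0).X →L[ℂ] M.X := s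
  obtain ⟨q, hq, hqr⟩ := nec0 hPH (hJ 0) (e0.comp i) (fun a z => by
    have h1 : e0 (M.act a (i z)) = (J 0).act a (e0 (i z)) := he a (i z)
    have h2 : M.act a (i z) = 0 := hk a z
    show (J 0).act a (e0 (i z)) = 0
    rw [← h1, h2, map_zero]) (π.comp s0) (fun z => by
    have h1 : s0 (e0 (i z)) = i z := hs (i z)
    show π (s0 (e0 (i z))) = z
    rw [h1, hπ])
  have : Nonempty A := ⟨0⟩
  refine normable_of_bound hq fun O hO => ?_
  obtain ⟨p, hp, hpO⟩ := exists_seminorm hO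
  obtain ⟨r, hr, hpr, hm, hR⟩ := hA p hp
  obtain ⟨F, C, hC0, hF1, hF2, hF3⟩ := hqr r hm hr
  obtain ⟨α, hα, hαC⟩ := hAS A r q hm (TopologicalSpace.denseSeq A) (fun z ε hε => by
    have h1 : IsOpen {y : A | r (z - y) < ε} := by
      refine isOpen_lt ?_ continuous_const
      exact hr.comp (continuous_const.sub continuous_id)
    obtain ⟨k, hk⟩ := (TopologicalSpace.denseRange_denseSeq A).exists_mem_open h1
      ⟨z, by
        show r (z - z) < ε
        rw [sub_self, map_zero]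
        exact hε⟩
    exact ⟨k, hk⟩) F C hC0 hF1 hF2 hF3
  obtain ⟨C', hC'⟩ := rad_bound hm hR hC0 hα hαC
  have hpos : 0 < |C'| + 1 := by positivity
  refine ⟨1 / (|C'| + 1), by positivity, fun x hx => hpO x ?_⟩
  rw [lt_div_iff₀ hpos] at hx
  have h1 := hpr x
  have h2 := hC' x
  have h3 := apply_nonneg q x
  have h4 : C' * q x ≤ |C'| * q x := mul_le_mul_of_nonneg_right (le_abs_self C') h3
  nlinarith

/-- The equivalence. -/
theorem radical_tfae [TopologicalSpace.SeparableSpace A] (hA : RadAlg A) :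
    List.TFAE [∀ M : FMod A, HasCores M, ∃ M : FMod A, HasC0 M ∧ HasCores M, Normable A] := by
  tfae_have 1 → 2 := fun h => ⟨c0M A, hasC0_c0M, h _⟩
  tfae_have 2 → 3 := fun ⟨M, h0, hM⟩ => normable_of_hasC0 hA hM h0
  tfae_have 3 → 1 := fun h M => (hasCores_iff M).2 (hasInjectiveCoresolution h M)
  tfae_finish

end Pool.Agent.Helper20.FR
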