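import Pool.Agent.Helper20.FH.H1
import Pool.Agent.Helper20.FK.Dual

/-!
# Statements of the modules of project R20 (commutative radical Fréchet algebras)
-/

open Topology Filter

namespace Pool.Agent.Helper20.FR

open Pool.Agent.Helper20.FA

/-- PH (diagonal form of Phillips' lemma). `Bd` = bounded sequences, `unB n` = unit vectors,
`indB S` = indicator function of `S` (file FH/H1).
Proof (gliding hump). Suppose `‖T (unB n) n‖ ≥ ε` for infinitely many `n` (an infinite set `P`).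
(a) For fixed `n`, an infinite set `Q` and `δ > 0` there is an infinite `Q' ⊆ Q` with
`‖T (indB S) n‖ ≤ δ` for ALL `S ⊆ Q'`: otherwise split `Q` into `K` disjoint infinite sets, in each
take `S i` with `‖T (indB (S i)) n‖ > δ`; with unimodular `c i` the sequence
`b = ∑ c i • indB (S i)` has norm at most 1 and `‖T b n‖ > K δ`, a contradiction if `K δ > C`.
(b) Choose `n 0 < n 1 < ...` in `P` and infinite `P ⊇ P 0 ⊇ P 1 ⊇ ...` with `n (i+1) ∈ P i`, all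
elements of `P i` above `n i`, `‖T (indB S) (n i)‖ ≤ ε / 4` for all `S ⊆ P i` (by (a)) and
`∑ j < i, ‖T (unB (n j)) (n i)‖ ≤ ε / 4` (possible since `T (unB (n j)) m → 0` as `m → ∞`).
(c) For `S = {n j}`: `indB S = ∑ j < i, unB (n j) + unB (n i) + indB {n j | j > i}`, so
`‖T (indB S) (n i)‖ ≥ ε / 2` for all `i`, contradicting `T (indB S) → 0`. -/
def StPH : Prop := ∀ (T : Bd →ₗ[ℂ] (ℕ → ℂ)) (C : ℝ), 0 ≤ C → (∀ b n, ‖T b n‖ ≤ C * ‖b‖) →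
  (∀ b, Tendsto (T b) atTop (𝓝 0)) → Tendsto (fun n => T (unB n) n) atTop (𝓝 0)

/-- HB. Proof: on the subspace of all `(l, (l (x i)) i)` of `E' × (Fin n → ℂ)` the functional
`(l, _) ↦ F l` is bounded by the seminorm `η ‖l‖ + K ∑ ‖v i‖`; extend it (Hahn-Banach for
seminorms) to `Φ` and write `Φ (l, v) = Φ (l, 0) + ∑ c i v i`; then `z = ∑ c i x i`. -/
def StHB : Prop := ∀ (E : Type) [SeminormedAddCommGroup E] [NormedSpace ℂ E]
  (F : (E →L[ℂ] ℂ) →ₗ[ℂ] ℂ) (n : ℕ) (x : Fin n → E) (η K : ℝ), 0 ≤ η → 0 ≤ K →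
  (∀ l, ‖F l‖ ≤ η * ‖l‖ + K * ∑ i, ‖l (x i)‖) → ∃ z : E, ∀ l, ‖F l - l z‖ ≤ η * ‖l‖

/-- DI (a bounded functional on the dual of a separable space that is weak star sequentially
continuous at zero is at distance zero from `E`). Proof: fix `η > 0`. If for some `n` the
inequality of StHB holds for `x 0, ..., x (n - 1)` and `K = n`, use StHB. Otherwise for each `n`
there is `l` with `‖F l‖ > η ‖l‖ + n ∑ i < n, ‖l (x i)‖`; `l ≠ 0`, scale to `‖l n‖ = 1` (if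
`‖l‖ = 0` then `l z = 0` for all `z`, so `l = 0`, excluded). Then `‖l n (x i)‖ ≤ C / n` for `i < n`,
so `l n z → 0` for all `z` (density, `‖l n‖ ≤ 1`), but `‖F (l n)‖ > η`. -/
def StDI : Prop := ∀ (E : Type) [SeminormedAddCommGroup E] [NormedSpace ℂ E] (x : ℕ → E),
  (∀ z, ∀ ε > 0, ∃ k, ‖z - x k‖ < ε) → ∀ (F : (E →L[ℂ] ℂ) →ₗ[ℂ] ℂ) (C : ℝ),
  (∀ l, ‖F l‖ ≤ C * ‖l‖) →
  (∀ l : ℕ → (E →L[ℂ] ℂ), (∀ j, ‖l j‖ ≤ 1) → (∀ z, Tendsto (fun j => l j z) atTop (𝓝 0)) →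
    Tendsto (fun j => F (l j)) atTop (𝓝 0)) →
  ∀ η > 0, ∃ z : E, ∀ l, ‖F l - l z‖ ≤ η * ‖l‖

/-- UL. Proof: `G v` = limit of `F n v` along the hyperfilter (an ultrafilter finer than
`atTop`); it exists since `F n v` stays in a compact ball; linear by uniqueness of limits; the
property: a set of the ultrafilter is infinite. -/
def StUL : Prop := ∀ (V : Type) [AddCommGroup V] [Module ℂ V] (F : ℕ → V →ₗ[ℂ] ℂ) (B : V → ℝ),
  (∀ n v, ‖F n v‖ ≤ B v) →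
  ∃ G : V →ₗ[ℂ] ℂ, ∀ v, ∀ S ∈ 𝓝 (G v), ∃ᶠ n in atTop, F n v ∈ S

/-- RA. `(fun z => a * z)^[n] a` is `a ^ (n + 1)`. Proof: take `N` with `r (α k - α N) ≤ 1/8` for
`k ≥ N`, put `a = α N`, `d k = α k - a`; `r (a ^ (n + 1)) ≤ K (1/8) ^ n`. By the binomial theorem
(for instance in the unitization) `r (α k ^ (n + 1)) ≤ K' (1/4) ^ n` for all `k ≥ N`, `n`. Fix `m`
with `K' (1/4) ^ m ≤ 1/4`. With `b k = ∑ 1 ≤ j ≤ m, (-α k) ^ j` we have `r (b k) ≤ K''` and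
`(1 + b k)(1 + α k) = 1 - (-α k) ^ (m + 1)`, so
`r c ≤ (1 + K'') r (c + α k c) + (1/4) r c ≤ (1 + K'') (C q c + (1/2) ^ k r c) + (1/4) r c`; take
`k ≥ N` with `(1 + K'') (1/2) ^ k ≤ 1/4`. -/
def StRA : Prop := ∀ (A : Type) [NonUnitalCommRing A] [Module ℂ A] [IsScalarTower ℂ A A]
  [SMulCommClass ℂ A A] (r q : Seminorm ℂ A), (∀ a b, r (a * b) ≤ r a * r b) →
  (∀ a : A, ∀ ε > 0, ∃ K : ℝ, ∀ n : ℕ, r ((fun z => a * z)^[n] a) ≤ K * ε ^ n) →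
  ∀ (α : ℕ → A) (C : ℝ), 0 ≤ C → (∀ ε > 0, ∃ N, ∀ k ≥ N, r (α k - α N) ≤ ε) →
  (∀ k c, r (c + α k * c) ≤ C * q c + (1 / 2) ^ k * r c) → ∃ C' : ℝ, ∀ c, r c ≤ C' * q c

/-- AS (uses StUL and StDI as hypotheses; definitions `SA`, `DA`, `SA.of`, `DA.at`, `SA.B` in
FK/Dual: `SA r` is `A` with the seminorm `r`, `DA r` its dual, `l.at a = l a`,
`(SA.B r hm (SA.of r c) l).at a = l.at (a * c)` is `SA.B_at`). Proof: `G` from StUL with
`V = DA r`, `B l = C ‖l‖`; closed conditions on `F n l` for all `n` pass to `G l`. (i)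
`‖G l‖ ≤ C ‖l‖`, `‖l.at c + G (SA.B .. c l)‖ ≤ C q c ‖l‖`. (ii) if `‖l j‖ ≤ 1` and `l j` tends to
zero pointwise, then `G (l j) → 0`: otherwise there are `j 0 < j 1 < ...` with
`‖G (l (j i))‖ > ε` and, by StUL, `n 0 < n 1 < ...` with `‖F (n i) (l (j i))‖ > ε`; the sequence
`l' (n i) = l (j i)`, `l' n = 0` otherwise, contradicts the last hypothesis. (iii) StDI for
`E = SA r` gives `α k` with `‖G l - l.at (α k)‖ ≤ (1/2) ^ k ‖l‖`. By Hahn-Banach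
(`NormedSpace.norm_le_dual_bound`) `r (α k - α m) ≤ (1/2)^k + (1/2)^m`, and
`l.at (c + α k * c) = l.at c + (SA.B .. c l).at (α k)`, `‖SA.B .. c l‖ ≤ r c ‖l‖` give the last
claim. -/
def StAS : Prop := ∀ (A : Type) [NonUnitalRing A] [Module ℂ A] [IsScalarTower ℂ A A]
  [SMulCommClass ℂ A A] (r q : Seminorm ℂ A) (hm : ∀ a b, r (a * b) ≤ r a * r b) (x : ℕ → A),
  (∀ z, ∀ ε > 0, ∃ k, r (z - x k) < ε) → ∀ (F : ℕ → DA r →ₗ[ℂ] ℂ) (C : ℝ), 0 ≤ C →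
  (∀ n l, ‖F n l‖ ≤ C * ‖l‖) →
  (∀ n c (l : DA r), ‖l.at c + F n (SA.B r hm (SA.of r c) l)‖ ≤ C * q c * ‖l‖) →
  (∀ l : ℕ → DA r, (∀ n, ‖l n‖ ≤ 1) → (∀ a, Tendsto (fun n => (l n).at a) atTop (𝓝 0)) →
    Tendsto (fun n => F n (l n)) atTop (𝓝 0)) →
  ∃ α : ℕ → A, (∀ ε > 0, ∃ N, ∀ k ≥ N, r (α k - α N) ≤ ε) ∧
    ∀ k c, r (c + α k * c) ≤ C * q c + (1 / 2) ^ k * r c

end Pool.Agent.Helper20.FR
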